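import Pool.Agent.Y706.BI.Stm

/-!
# Project BI, statement BAL: balanced coordinates of a bicritical map
-/

set_option autoImplicit false
set_option linter.unusedSectionVars false

universe u

namespace Pool.Agent.Y587.BI

open Pool.Agent.W277.UG Pool.Agent.W277.UH Pool.Agent.Y706.BI Finset

variable {Ω : Type u} [NormedField Ω] [IsUltrametricDist Ω]

/-! ### The balanced radius -/

lemma exists_radius {n : ℕ} (a b c e : ℝ) (ha : 0 ≤ a) (hb : 0 ≤ b) (hc : 0 ≤ c) (he : 0 ≤ e)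
    (hab : 0 < max a b) (hce : 0 < max c e) :
    ∃ r : ℝ, 0 < r ∧ max (r ^ (n + 1) * a) (r ^ (n + 2) * b) = max (r⁻¹ * c) e := by
  obtain ⟨M, hM⟩ : ∃ M, M = max a b := ⟨_, rfl⟩
  obtain ⟨N, hN⟩ : ∃ N, N = max c e := ⟨_, rfl⟩
  rw [← hM] at hab
  rw [← hN] at hce
  have haM : a ≤ M := hM ▸ le_max_left _ _
  have hbM : b ≤ M := hM ▸ le_max_right _ _
  have hcN : c ≤ N := hN ▸ le_max_left _ _
  have heN : e ≤ N := hN ▸ le_max_right _ _
  have hcont : Continuous fun t : ℝ => max (Real.exp t ^ (n + 1) * a) (Real.exp t ^ (n + 2) * b) -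
      max ((Real.exp t)⁻¹ * c) e := by
    have h1 : Continuous fun t : ℝ => (Real.exp t)⁻¹ :=
      Real.continuous_exp.inv₀ fun t => (Real.exp_pos t).ne'
    exact (((Real.continuous_exp.pow _).mul continuous_const).max
      ((Real.continuous_exp.pow _).mul continuous_const)).sub
      ((h1.mul continuous_const).max continuous_const)
  have hlow : ∃ t : ℝ, max (Real.exp t ^ (n + 1) * a) (Real.exp t ^ (n + 2) * b) -
      max ((Real.exp t)⁻¹ * c) e ≤ 0 := by
    obtain ⟨r, hr⟩ : ∃ r, r = min 1 (N / M) := ⟨_, rfl⟩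
    have hr0 : 0 < r := by rw [hr]; exact lt_min one_pos (div_pos hce hab)
    have hr1 : r ≤ 1 := hr ▸ min_le_left _ _
    have hrM : r * M ≤ N := by
      have h1 : r ≤ N / M := hr ▸ min_le_right _ _
      exact (le_div_iff₀ hab).1 h1
    refine ⟨Real.log r, ?_⟩
    rw [Real.exp_log hr0, sub_nonpos]
    have h1 : ∀ k : ℕ, r ^ (k + 1) ≤ r := fun k => by
      rw [pow_succ]
      exact mul_le_of_le_one_left hr0.le (pow_le_one₀ hr0.le hr1)
    have h2 : N ≤ max (r⁻¹ * c) e := by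
      rw [hN]
      refine max_le_max ?_ le_rfl
      exact le_mul_of_one_le_left hc ((one_le_inv₀ hr0).2 hr1)
    refine le_trans (max_le ?_ ?_) (hrM.trans h2)
    · exact mul_le_mul (h1 n) haM ha hr0.le
    · exact mul_le_mul (h1 (n + 1)) hbM hb hr0.le
  have hhigh : ∃ t : ℝ, 0 ≤ max (Real.exp t ^ (n + 1) * a) (Real.exp t ^ (n + 2) * b) -
      max ((Real.exp t)⁻¹ * c) e := by
    obtain ⟨r, hr⟩ : ∃ r, r = max 1 (N / M) := ⟨_, rfl⟩
    have hr1 : 1 ≤ r := hr ▸ le_max_left _ _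
    have hr0 : 0 < r := by linarith
    have hrM : N ≤ r * M := by
      have h1 : N / M ≤ r := hr ▸ le_max_right _ _
      exact (div_le_iff₀ hab).1 h1
    refine ⟨Real.log r, ?_⟩
    rw [Real.exp_log hr0, sub_nonneg]
    have h1 : ∀ k : ℕ, r ≤ r ^ (k + 1) := fun k => by
      rw [pow_succ]
      exact le_mul_of_one_le_left hr0.le (one_le_pow₀ hr1)
    have h2 : max (r⁻¹ * c) e ≤ N := by
      rw [hN]
      refine max_le_max ?_ le_rfl
      exact mul_le_of_le_one_left hc (inv_le_one_of_one_le₀ hr1)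
    refine h2.trans (hrM.trans ?_)
    rw [hM, mul_max_of_nonneg _ _ hr0.le]
    refine max_le_max ?_ ?_
    · exact mul_le_mul_of_nonneg_right (h1 n) ha
    · exact mul_le_mul_of_nonneg_right (h1 (n + 1)) hb
  obtain ⟨t, ht⟩ := mem_range_of_exists_le_of_exists_ge hcont hlow hhigh
  refine ⟨Real.exp t, Real.exp_pos t, ?_⟩
  simp only at ht
  linarith

lemma exists_of_norm_pow [IsAlgClosed Ω] {x y : Ω} {r : ℝ} (hr : 0 < r) (hx : x ≠ 0) (n : ℕ)
    (h : r ^ (n + 1) * ‖x‖ = ‖y‖) : ∃ α : Ω, ‖α‖ = r := by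
  obtain ⟨z, hz⟩ := IsAlgClosed.exists_pow_nat_eq (y / x) (Nat.succ_pos n)
  refine ⟨z, ?_⟩
  have h1 : ‖z‖ ^ (n + 1) = r ^ (n + 1) := by
    rw [← norm_pow, hz, norm_div, ← h, mul_div_assoc, div_self (norm_ne_zero_iff.2 hx), mul_one]
  exact (pow_left_inj₀ (norm_nonneg z) hr.le (Nat.succ_ne_zero n)).1 h1

lemma bal_exists [IsAlgClosed Ω] {u v : Ω × Ω} (hu : u ≠ 0) (hv : v ≠ 0) (n : ℕ) :
    ∃ α s : Ω, α ≠ 0 ∧ s ≠ 0 ∧ ‖s • ((α ^ (n + 1) * u.1, α ^ (n + 2) * u.2) : Ω × Ω)‖ = 1 ∧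
      ‖s • ((α⁻¹ * v.1, v.2) : Ω × Ω)‖ = 1 := by
  have hu' : 0 < max ‖u.1‖ ‖u.2‖ := by
    rw [← Prod.norm_def]
    exact norm_pos_iff.2 hu
  have hv' : 0 < max ‖v.1‖ ‖v.2‖ := by
    rw [← Prod.norm_def]
    exact norm_pos_iff.2 hv
  obtain ⟨r, hr, hbal⟩ := exists_radius (n := n) ‖u.1‖ ‖u.2‖ ‖v.1‖ ‖v.2‖ (norm_nonneg _)
    (norm_nonneg _) (norm_nonneg _) (norm_nonneg _) hu' hv'
  obtain ⟨mm, hmm⟩ : ∃ mm, mm = max (r⁻¹ * ‖v.1‖) ‖v.2‖ := ⟨_, rfl⟩
  have hmpos : 0 < mm := by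
    rw [hmm]
    rcases lt_max_iff.1 hv' with h | h
    · exact lt_max_of_lt_left (mul_pos (inv_pos.2 hr) h)
    · exact lt_max_of_lt_right h
  rw [← hmm] at hbal
  have hri : ∀ k : ℕ, ∀ x y : ℝ, r ^ k * x = r⁻¹ * y → r ^ (k + 1) * x = y := by
    intro k x y h
    rw [pow_succ, mul_comm (r ^ k) r, mul_assoc, h, ← mul_assoc, mul_inv_cancel₀ hr.ne', one_mul]
  have hα : ∃ α : Ω, ‖α‖ = r := by
    rcases max_choice (r ^ (n + 1) * ‖u.1‖) (r ^ (n + 2) * ‖u.2‖) with h1 | h1 <;>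
    rcases max_choice (r⁻¹ * ‖v.1‖) ‖v.2‖ with h2 | h2
    · rw [hbal] at h1
      rw [← hmm] at h2
      have hx : u.1 ≠ 0 := by
        intro h0
        rw [h0, norm_zero, mul_zero] at h1
        linarith
      exact exists_of_norm_pow hr hx (n + 1) (hri _ _ _ (h1.symm.trans h2))
    · rw [hbal] at h1
      rw [← hmm] at h2
      have hx : u.1 ≠ 0 := by
        intro h0
        rw [h0, norm_zero, mul_zero] at h1
        linarith
      exact exists_of_norm_pow hr hx n (h1.symm.trans h2)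
    · rw [hbal] at h1
      rw [← hmm] at h2
      have hx : u.2 ≠ 0 := by
        intro h0
        rw [h0, norm_zero, mul_zero] at h1
        linarith
      exact exists_of_norm_pow hr hx (n + 2) (hri _ _ _ (h1.symm.trans h2))
    · rw [hbal] at h1
      rw [← hmm] at h2
      have hx : u.2 ≠ 0 := by
        intro h0
        rw [h0, norm_zero, mul_zero] at h1
        linarith
      exact exists_of_norm_pow hr hx (n + 1) (h1.symm.trans h2)
  obtain ⟨α, hα⟩ := hα
  have hα0 : α ≠ 0 := by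
    rw [← norm_pos_iff, hα]
    exact hr
  have hU : ‖((α ^ (n + 1) * u.1, α ^ (n + 2) * u.2) : Ω × Ω)‖ = mm := by
    rw [Prod.norm_def]
    simp only [norm_mul, norm_pow]
    rw [hα, hbal]
  have hV : ‖((α⁻¹ * v.1, v.2) : Ω × Ω)‖ = mm := by
    rw [Prod.norm_def]
    simp only [norm_mul, norm_inv]
    rw [hα, ← hmm]
  have hne : ((α⁻¹ * v.1, v.2) : Ω × Ω) ≠ 0 := by
    rw [← norm_pos_iff, hV]
    exact hmpos
  obtain ⟨t, W, ht, hW, -, htn⟩ := exists_unit _ hne
  refine ⟨α, t⁻¹, hα0, inv_ne_zero ht, ?_, ?_⟩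
  · rw [norm_smul, norm_inv, htn, hU, hV, inv_mul_cancel₀ hmpos.ne']
  · rw [norm_smul, norm_inv, htn, hV, inv_mul_cancel₀ hmpos.ne']

/-! ### Maps in balanced form -/

lemma norm_add_le_one {x y : Ω × Ω} (hx : ‖x‖ ≤ 1) (hy : ‖y‖ ≤ 1) : ‖x + y‖ ≤ 1 := by
  have h := norm_sub_le_max x (-y)
  rw [sub_neg_eq_add, norm_neg] at h
  exact h.trans (max_le hx hy)

lemma mkBB [IsAlgClosed Ω] (hnat : ∀ n : ℕ, n ≠ 0 → ‖(n : Ω)‖ = 1) (S : HS Ω) (hd : 2 ≤ S.d)
    {U V : Ω × Ω} (hU : ‖U‖ = 1) (hV : ‖V‖ = 1)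
    (hF : ∀ X, S.F X = X.1 ^ S.d • U + X.2 ^ S.d • V) : ∃ T : BB Ω, T.S = S := by
  have hd0 : S.d ≠ 0 := by omega
  have hV0 : V ≠ 0 := by
    rintro rfl
    rw [norm_zero] at hV
    exact zero_ne_one hV
  have hw : wd U V ≠ 0 := by
    intro h0
    obtain ⟨t, ht⟩ := (wd_zero_iff hV0).1 h0
    obtain ⟨y, hy⟩ := IsAlgClosed.exists_pow_nat_eq (-t) (by omega : 0 < S.d)
    have h1 : ((1, y) : Ω × Ω) ≠ 0 := by
      intro h
      exact one_ne_zero (congrArg Prod.fst h)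
    apply S.nz _ h1
    rw [hF]
    simp only [one_pow, one_smul]
    rw [hy, ht, neg_smul, add_neg_cancel]
  have hwpos : 0 < ‖wd U V‖ := norm_pos_iff.2 hw
  refine ⟨⟨S, U, V, -(1 / 2) * Real.log ‖wd U V‖, hd, ?_, hU, hV, hF, ?_, ?_⟩, rfl⟩
  · obtain ⟨B, hB⟩ := exists_fam hnat
    obtain ⟨E, hE⟩ := HS.gs_attained (S := S) B
    have hval : ∀ i : ℕ, S.F (B.b i) = ((i : Ω) ^ S.d) • U + V := by
      intro i
      rw [hF, hB]
      simp only [one_pow, one_smul]
    obtain ⟨i, hi⟩ := Infinite.exists_notMem_finset E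
    obtain ⟨j, hj⟩ := Infinite.exists_notMem_finset (insert i E)
    rw [Finset.mem_insert, not_or] at hj
    have hi1 := hE i hi
    have hj1 := hE j hj.2
    have hle : S.gs ≤ 1 := by
      rw [← hi1, hval]
      refine norm_add_le_one ?_ hV.le
      rw [norm_smul, hU, mul_one, norm_pow]
      refine pow_le_one₀ (norm_nonneg _) ?_
      by_cases h0 : i = 0
      · rw [h0, Nat.cast_zero, norm_zero]
        exact zero_le_one
      · exact (hnat i h0).le
    refine le_antisymm hle ?_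
    have hdiff : ‖S.F (B.b j) - S.F (B.b i)‖ = 1 := by
      rw [hval, hval, add_sub_add_right_eq_sub, ← sub_smul, norm_smul, hU, mul_one]
      have hne : j ^ S.d ≠ i ^ S.d := fun h => hj.1 (Nat.pow_left_injective hd0 h)
      rcases lt_or_gt_of_ne hne with h | h
      · have e : ((j : Ω) ^ S.d - (i : Ω) ^ S.d) = -((i ^ S.d - j ^ S.d : ℕ) : Ω) := by
          rw [Nat.cast_sub h.le]
          push_cast
          ring
        rw [e, norm_neg]
        exact hnat _ (by omega)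
      · have e : ((j : Ω) ^ S.d - (i : Ω) ^ S.d) = ((j ^ S.d - i ^ S.d : ℕ) : Ω) := by
          rw [Nat.cast_sub h.le]
          push_cast
          ring
        rw [e]
        exact hnat _ (by omega)
    have h2 := norm_sub_le_max (S.F (B.b j)) (S.F (B.b i))
    rw [hdiff, hi1, hj1, max_self] at h2
    exact h2
  · have e : -(2 * (-(1 / 2) * Real.log ‖wd U V‖)) = Real.log ‖wd U V‖ := by ring
    rw [e, Real.exp_log hwpos]
  · obtain ⟨c, η, hc, hη, hr, hR⟩ := S.roots V hV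
    have hwF : ∀ X, wd (S.F X) V = X.1 ^ S.d * wd U V := by
      intro X
      rw [hF, wd_add_left, wd_smul_left, wd_smul_left, wd_self, mul_zero, add_zero]
    have hη1 : ∀ l, (η l).1 = 0 := by
      intro l
      have h1 := hr (η l)
      rw [Finset.prod_eq_zero (Finset.mem_univ l) (wd_self _), mul_zero, hwF] at h1
      exact pow_eq_zero_iff hd0 |>.1 ((mul_eq_zero.1 h1).resolve_right hw)
    have hη2 : ∀ l, ‖(η l).2‖ = 1 := by
      intro l
      have h1 := hη l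
      rw [Prod.norm_def, hη1, norm_zero, max_eq_right (norm_nonneg _)] at h1
      exact h1
    have hFη : ∀ l, ‖S.F (η l)‖ = 1 := by
      intro l
      rw [hF, hη1, zero_pow hd0, zero_smul, zero_add, norm_smul, norm_pow, hη2, one_pow, hV,
        one_mul]
    have hcn : ‖c‖ = ‖wd U V‖ := by
      have h1 := hr (1, 0)
      rw [hwF] at h1
      simp only [one_pow, one_mul] at h1
      rw [h1, norm_mul, norm_prod, Finset.prod_eq_one, mul_one]
      intro l _
      unfold wd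
      simp only [one_mul, zero_mul, sub_zero]
      exact hη2 l
    rw [Finset.prod_congr rfl fun l _ => hFη l, Finset.prod_const_one, mul_one, hcn] at hR
    have h2 := congrArg Real.log hR
    rw [Real.log_exp, Real.log_pow] at h2
    linarith

/-! ### The conjugate -/

theorem t_BAL : S_BAL.{u} := by
  intro Ω _ _ _ hnat S₀ A B U V hd hAB hF
  obtain ⟨n, hn⟩ : ∃ n, S₀.d = n + 2 := ⟨S₀.d - 2, by omega⟩
  have hBA : wd B A ≠ 0 := by
    rw [wd_comm]
    exact neg_ne_zero.2 hAB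
  have hA0 : A ≠ 0 := by
    rintro rfl
    apply hAB
    unfold wd
    simp
  have hB0 : B ≠ 0 := by
    rintro rfl
    apply hAB
    unfold wd
    simp
  have hU0 : U ≠ 0 := by
    rintro rfl
    apply S₀.nz B hB0
    rw [hF, smul_zero, zero_add, wd_self, zero_pow (by omega), zero_smul]
  have hV0 : V ≠ 0 := by
    rintro rfl
    apply S₀.nz A hA0
    rw [hF, smul_zero, add_zero, wd_self, zero_pow (by omega), zero_smul]
  have hgi : ∀ X : Ω × Ω, X ≠ 0 → ∀ a : Ω, a ≠ 0 → ((a * wd X A, a * wd B X) : Ω × Ω) ≠ 0 := by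
    intro X hX a ha h0
    have h1 : wd X A = 0 := by
      have := congrArg Prod.fst h0
      exact (mul_eq_zero.1 this).resolve_left ha
    have h2 : wd B X = 0 := by
      have := congrArg Prod.snd h0
      exact (mul_eq_zero.1 this).resolve_left ha
    obtain ⟨t, ht⟩ := (wd_zero_iff hA0).1 h1
    rw [ht, wd_smul_right] at h2
    have ht0 : t = 0 := (mul_eq_zero.1 h2).resolve_right hBA
    rw [ht0, zero_smul] at ht
    exact hX ht
  obtain ⟨α, s, hα, hs, hN1, hN2⟩ := bal_exists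
    (u := ((wd B A) ^ (n + 1) * wd U A, (wd B A) ^ (n + 1) * wd B U))
    (v := ((wd A B) ^ (n + 2) * (wd B A)⁻¹ * wd V A, (wd A B) ^ (n + 2) * (wd B A)⁻¹ * wd B V))
    (hgi U hU0 _ (pow_ne_zero _ hBA))
    (hgi V hV0 _ (mul_ne_zero (pow_ne_zero _ hAB) (inv_ne_zero hBA))) n
  have hPQ : wd (α • B) A ≠ 0 := by
    rw [wd_smul_left]
    exact mul_ne_zero hα hBA
  obtain ⟨T, hT⟩ := mkBB hnat (S₀.conj (α • B) A hPQ s hs) hd hN1 hN2 (by
    intro X
    show s • gi (α • B) A (S₀.F (gm (α • B) A X)) = X.1 ^ S₀.d • _ + X.2 ^ S₀.d • _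
    have h1 : wd (gm (α • B) A X) A = X.1 * (α * wd B A) := by
      unfold gm
      rw [wd_add_left, wd_smul_left, wd_smul_left, wd_smul_left, wd_self, mul_zero, add_zero]
    have h2 : wd (gm (α • B) A X) B = X.2 * wd A B := by
      unfold gm
      rw [wd_add_left, wd_smul_left, wd_smul_left, wd_smul_left, wd_self, mul_zero, mul_zero,
        zero_add]
    rw [hF, h1, h2, hn]
    unfold gi
    rw [wd_smul_left, wd_add_left, wd_smul_left, wd_smul_left]
    have h3 : wd (α • B) ((X.1 * (α * wd B A)) ^ (n + 2) • U + (X.2 * wd A B) ^ (n + 2) • V) =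
        α * ((X.1 * (α * wd B A)) ^ (n + 2) * wd B U + (X.2 * wd A B) ^ (n + 2) * wd B V) := by
      rw [wd_comm, wd_add_left, wd_smul_left, wd_smul_left, wd_smul_right, wd_smul_right,
        wd_comm U B, wd_comm V B]
      ring
    rw [h3]
    ext
    · simp only [Prod.smul_fst, Prod.fst_add, smul_eq_mul]
      field_simp
      ring
    · simp only [Prod.smul_snd, Prod.snd_add, smul_eq_mul]
      field_simp
      ring)
  exact ⟨α • B, A, hPQ, s, hs, T, hT⟩

end Pool.Agent.Y587.BI
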